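import Pool.Agent.Helper94.SY.St

set_option autoImplicit false

namespace Pool.Agent.Helper64.SY

open Pool.Agent.Helper94.SY Finset
open scoped Classical
open Pool.Agent.Helper1.PFS (G rmul lineSum StA)
open Pool.Agent.Helper70.EC (nsq PF TT StT2)

section

variable {p : ℕ} [Fact p.Prime]

theorem DN_RR_eq (F : Finset (W p × W p)) (g : G p) :
    RR F g = ∑ e ∈ F, if rmul e.1 g = e.2 then (1 : ℝ) else 0 := by
  unfold RR
  have h1 : (∑ e ∈ F, if rmul e.1 g = e.2 then (1 : ℝ) else 0) =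
      ∑ e : W p × W p, if e ∈ F then (if rmul e.1 g = e.2 then (1 : ℝ) else 0) else 0 := by
    rw [Finset.sum_ite_mem, Finset.univ_inter]
  have h2 : (∑ e : W p × W p, if e ∈ F then (if rmul e.1 g = e.2 then (1 : ℝ) else 0) else 0) =
      ∑ r : W p, ∑ v : W p, if (r, v) ∈ F then (if rmul r g = v then (1 : ℝ) else 0) else 0 :=
    Fintype.sum_prod_type _
  rw [h1, h2]
  refine Finset.sum_congr rfl fun r _ => ?_
  rw [Finset.sum_eq_single (rmul r g)]
  · simp
  · intro v _ hv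
    by_cases h : (r, v) ∈ F
    · rw [if_pos h, if_neg]
      exact fun h2 => hv h2.symm
    · rw [if_neg h]
  · intro h
    exact absurd (Finset.mem_univ _) h

theorem DN_RR_nonneg (F : Finset (W p × W p)) (g : G p) : 0 ≤ RR F g := by
  unfold RR
  exact Finset.sum_nonneg fun r _ => by split_ifs <;> norm_num

/-- the sum of all values -/
theorem DN_sum_RR (hLN : StLN) (F : Finset (W p × W p)) (hF : ∀ e ∈ F, e.1 ≠ 0 ∧ e.2 ≠ 0) :
    ∑ g : G p, RR F g = p * F.card := by
  have h1 : ∑ g : G p, RR F g = ∑ e ∈ F, ∑ g : G p, if rmul e.1 g = e.2 then (1 : ℝ) else 0 := by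
    rw [Finset.sum_comm]
    exact Finset.sum_congr rfl fun g _ => DN_RR_eq F g
  rw [h1, Finset.sum_congr rfl fun e he => hLN p e.1 e.2 (hF e he).1 (hF e he).2,
    Finset.sum_const, nsmul_eq_mul, mul_comm]

/-- the sum over `S` -/
theorem DN_sum_S (S : Finset (G p)) (F : Finset (W p × W p)) :
    ∑ g : G p, (if g ∈ S then RR F g else 0) = ∑ e ∈ F, dl S e.1 e.2 := by
  rw [← Finset.sum_filter]
  have h0 : (univ.filter fun g => g ∈ S) = S := by ext; simp
  rw [h0]
  unfold dl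
  rw [Finset.sum_comm]
  exact Finset.sum_congr rfl fun g _ => DN_RR_eq F g

/-- the substitution -/
theorem DN_TT (f R : G p → ℝ) : TT f R f = TT (fun g => f g⁻¹) f R := by
  unfold TT
  have h1 : ∀ a : G p, ∑ b : G p, f a * R b * f (a * b) = ∑ u : G p, f a * R (a⁻¹ * u) * f u := by
    intro a
    rw [← Equiv.sum_comp (Equiv.mulLeft a⁻¹)]
    refine Finset.sum_congr rfl fun b _ => ?_
    simp
  rw [Finset.sum_congr rfl fun a _ => h1 a, ← Equiv.sum_comp (Equiv.inv (G p))]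
  refine Finset.sum_congr rfl fun a _ => Finset.sum_congr rfl fun b _ => ?_
  simp only [Equiv.inv_apply, inv_inv]
  ring

theorem DN_abs {x y c X E : ℝ} (hE : 0 ≤ E) (hX : 0 ≤ X) (_ : 0 ≤ x) (hx1 : x ≤ X) (hy : 0 ≤ y)
    (hy1 : y ≤ X) (h : c ^ 2 ≤ E ^ 2 * x * y) : |c| ≤ E * X := by
  refine abs_le_of_sq_le_sq ?_ (mul_nonneg hE hX)
  refine h.trans ?_
  have h1 : x * y ≤ X * X := mul_le_mul hx1 hy1 hy hX
  have h2 : 0 ≤ E ^ 2 := by positivity
  nlinarith

end

theorem hDN : StLN → StMX → StNR → StDN := by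
  intro hLN hMX hNR p _ S hS F K s hK hmu hs hF
  have hp : 2 ≤ p := (Fact.out : p.Prime).two_le
  have hp' : (2 : ℝ) ≤ p := by exact_mod_cast hp
  set R : G p → ℝ := RR F with hR
  set f : G p → ℝ := fun g => if g ∈ S then R g else 0 with hf
  set P : ℝ := ∑ g, R g with hP
  set Q : ℝ := ∑ g, f g with hQ
  set X : ℝ := nsq R with hX
  set c : ℝ := (F.card : ℝ) with hc
  set E : ℝ := 2 * p * Real.sqrt (K * (p - 1) * c) with hE
  set n : ℝ := (p : ℝ) * ((p : ℝ) ^ 2 - 1) with hn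
  have hc0 : 0 ≤ c := Nat.cast_nonneg _
  have hKc : 0 ≤ K * (p - 1) * c := mul_nonneg (mul_nonneg hK (by linarith)) hc0
  have hE0 : 0 ≤ E := by positivity
  have hE2 : E ^ 2 = 4 * (p : ℝ) ^ 2 * (K * (p - 1) * c) := by
    rw [hE, mul_pow, Real.sq_sqrt hKc]
    ring
  have hn0 : 0 < n := by
    have : (1 : ℝ) < (p : ℝ) ^ 2 := by nlinarith
    exact mul_pos (by linarith) (by linarith)
  have hR0 : ∀ g, 0 ≤ R g := DN_RR_nonneg F
  have hf0 : ∀ g, 0 ≤ f g := fun g => by
    simp only [hf]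
    split_ifs
    · exact hR0 g
    · exact le_refl 0
  have hfR : ∀ g, f g ≤ R g := fun g => by
    simp only [hf]
    split_ifs
    · exact le_refl _
    · exact hR0 g
  have hPc : P = p * c := DN_sum_RR hLN F fun e he => ⟨(hF e he).1, (hF e he).2.1⟩
  have hQS : Q = ∑ e ∈ F, dl S e.1 e.2 := DN_sum_S S F
  have hQs : s * P ≤ Q := by
    rw [hQS, hPc]
    have h1 : ∑ e ∈ F, s * p ≤ ∑ e ∈ F, dl S e.1 e.2 :=
      Finset.sum_le_sum fun e he => (hF e he).2.2
    rw [Finset.sum_const, nsmul_eq_mul] at h1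
    calc s * (p * c) = c * (s * p) := by ring
      _ ≤ _ := h1
  have hP0 : 0 ≤ P := Finset.sum_nonneg fun g _ => hR0 g
  have hQ0 : 0 ≤ Q := Finset.sum_nonneg fun g _ => hf0 g
  have hX0 : 0 ≤ X := Finset.sum_nonneg fun g _ => by positivity
  have hfX : nsq f ≤ X := Finset.sum_le_sum fun g _ => pow_le_pow_left₀ (hf0 g) (hfR g) 2
  have hfn : 0 ≤ nsq f := Finset.sum_nonneg fun g _ => by positivity
  -- the inverse
  set fi : G p → ℝ := fun g => f g⁻¹ with hfi
  have hfiQ : ∑ g, fi g = Q := Equiv.sum_comp (Equiv.inv (G p)) f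
  have hfin : nsq fi = nsq f := Equiv.sum_comp (Equiv.inv (G p)) (fun g => f g ^ 2)
  -- the three estimates
  have h1 : |TT f f R - Q * Q * P / n| ≤ E * X := by
    refine DN_abs hE0 hX0 hfn hfX hfn hfX ?_
    rw [hE2]
    exact hMX p F K hK hmu f f
  have h2 : |TT fi f R - Q * Q * P / n| ≤ E * X := by
    refine DN_abs (x := nsq fi) hE0 hX0 (by rw [hfin]; exact hfn) (by rw [hfin]; exact hfX) hfn hfX ?_
    rw [hE2]
    have := hMX p F K hK hmu fi f
    rw [hfiQ] at this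
    exact this
  have h3 : |TT f R R - Q * P * P / n| ≤ E * X := by
    refine DN_abs hE0 hX0 hfn hfX hX0 (le_refl X) ?_
    rw [hE2]
    exact hMX p F K hK hmu f R
  -- product-freeness
  have h4 : TT f f R + TT f R f ≤ TT f R R := by
    unfold TT
    rw [← Finset.sum_add_distrib]
    refine Finset.sum_le_sum fun a _ => ?_
    rw [← Finset.sum_add_distrib]
    refine Finset.sum_le_sum fun b _ => ?_
    by_cases ha : a ∈ S
    · by_cases hb : b ∈ S
      · have hab : a * b ∉ S := hS a ha b hb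
        have e1 : f b = R b := by simp only [hf, if_pos hb]
        have e2 : f (a * b) = 0 := by simp only [hf, if_neg hab]
        rw [e1, e2, mul_zero, add_zero]
      · have e1 : f b = 0 := by simp only [hf, if_neg hb]
        rw [e1, mul_zero, zero_mul, zero_add]
        exact mul_le_mul_of_nonneg_left (hfR _) (mul_nonneg (hf0 a) (hR0 b))
    · have e1 : f a = 0 := by simp only [hf, if_neg ha]
      rw [e1]
      simp
  rw [DN_TT f R] at h4
  have h1' := (abs_le.1 h1).1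
  have h2' := (abs_le.1 h2).1
  have h3' := (abs_le.1 h3).2
  have h5 : 2 * (Q * Q * P / n) - Q * P * P / n ≤ 3 * (E * X) := by
    have : TT (fun g => f g⁻¹) f R = TT fi f R := rfl
    rw [this] at h4
    linarith
  have h6 : s * (2 * s - 1) * P ^ 3 / n ≤ 3 * (E * X) := by
    refine le_trans ?_ h5
    have e1 : 2 * (Q * Q * P / n) - Q * P * P / n = Q * P * (2 * Q - P) / n := by ring
    rw [e1]
    refine div_le_div_of_nonneg_right ?_ hn0.le
    have e2 : (2 * s - 1) * P ≤ 2 * Q - P := by linarith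
    have e3 : 0 ≤ (2 * s - 1) * P := mul_nonneg (by linarith) hP0
    have e4 : s * P * ((2 * s - 1) * P) ≤ Q * (2 * Q - P) := mul_le_mul hQs e2 e3 hQ0
    have e5 := mul_le_mul_of_nonneg_right e4 hP0
    calc s * (2 * s - 1) * P ^ 3 = s * P * ((2 * s - 1) * P) * P := by ring
      _ ≤ Q * (2 * Q - P) * P := e5
      _ = _ := by ring
  have h7 : c ^ 3 ≤ P ^ 3 / n := by
    rw [le_div_iff₀ hn0, hPc]
    have e1 : n ≤ (p : ℝ) ^ 3 := by
      rw [hn]
      nlinarith
    calc c ^ 3 * n ≤ c ^ 3 * (p : ℝ) ^ 3 := mul_le_mul_of_nonneg_left e1 (by positivity)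
      _ = _ := by ring
  have h8 : s * (2 * s - 1) * c ^ 3 ≤ 3 * (E * X) := by
    refine le_trans ?_ h6
    rw [mul_div_assoc]
    exact mul_le_mul_of_nonneg_left h7 (mul_nonneg (by linarith) (by linarith))
  have h9 : X ≤ 2 * p * (p - 1) * c + p * c ^ 2 / ((p : ℝ) ^ 2 - 1) := by
    have e1 := hNR p F
    have e2 : (∑ g, RR F g) ^ 2 / ((p : ℝ) * ((p : ℝ) ^ 2 - 1)) = p * c ^ 2 / ((p : ℝ) ^ 2 - 1) := by
      have : (∑ g, RR F g) = p * c := hPc
      rw [this]
      have e3 : (p : ℝ) ≠ 0 := by linarith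
      have e4 : (p : ℝ) ^ 2 - 1 ≠ 0 := by
        have : (1 : ℝ) < (p : ℝ) ^ 2 := by nlinarith
        linarith
      field_simp
    rw [e2] at e1
    exact e1
  refine h8.trans ?_
  have h10 := mul_le_mul_of_nonneg_left h9 hE0
  calc 3 * (E * X) ≤ 3 * (E * (2 * p * (p - 1) * c + p * c ^ 2 / ((p : ℝ) ^ 2 - 1))) := by linarith
    _ = _ := by rw [hE]; ring

end Pool.Agent.Helper64.SY
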