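import Pool.Agent.Helper94.SY.St

set_option autoImplicit false
set_option linter.unusedSectionVars false

namespace Pool.Agent.Helper64.SY

open Pool.Agent.Helper94.SY Finset
open scoped Classical
open scoped LinearAlgebra.Projectivization
open Pool.Agent.Helper1.PFS (G rmul lineSum StA)
open Pool.Agent.Helper70.EC (nsq PF TT StT2)

section

variable {p : ℕ} [Fact p.Prime]

theorem HV_smul_vec (g : G p) (x y : ZMod p) :
    g • (![x, y] : Fin 2 → ZMod p) = ![g.1 0 0 * x + g.1 0 1 * y, g.1 1 0 * x + g.1 1 1 * y] := by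
  rw [Matrix.SpecialLinearGroup.smul_def, Matrix.smul_eq_mulVec]
  funext i
  fin_cases i <;> simp [Matrix.mulVec, dotProduct, Fin.sum_univ_two]

/-- the image of the orthogonal vector -/
theorem HV_key (r v : W p) (h : G p) (c : (ZMod p)ˣ) (hc : rmul r h = (c : ZMod p) • v) :
    h • (![-v.2, v.1] : Fin 2 → ZMod p) = ((c⁻¹ : (ZMod p)ˣ) : ZMod p) • ![-r.2, r.1] := by
  have h1 := congrArg Prod.fst hc
  have h2 := congrArg Prod.snd hc
  simp only [rmul, Prod.smul_fst, Prod.smul_snd, smul_eq_mul] at h1 h2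
  have hd : h.1 0 0 * h.1 1 1 - h.1 0 1 * h.1 1 0 = 1 := by
    have := h.2
    rwa [Matrix.det_fin_two] at this
  have hci : ((c⁻¹ : (ZMod p)ˣ) : ZMod p) * (c : ZMod p) = 1 := Units.inv_mul c
  rw [HV_smul_vec]
  funext i
  fin_cases i
  · change h.1 0 0 * (-v.2) + h.1 0 1 * v.1 = ((c⁻¹ : (ZMod p)ˣ) : ZMod p) * (-r.2)
    linear_combination ((c⁻¹ : (ZMod p)ˣ) : ZMod p) * (h.1 0 0 * h2 - h.1 0 1 * h1 - r.2 * hd) -
      (h.1 0 0 * (-v.2) + h.1 0 1 * v.1) * hci
  · change h.1 1 0 * (-v.2) + h.1 1 1 * v.1 = ((c⁻¹ : (ZMod p)ˣ) : ZMod p) * r.1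
    linear_combination ((c⁻¹ : (ZMod p)ˣ) : ZMod p) * (h.1 1 0 * h2 - h.1 1 1 * h1 + r.1 * hd) -
      (h.1 1 0 * (-v.2) + h.1 1 1 * v.1) * hci

theorem HV_dl (S : Finset (G p)) (r v : W p) :
    dl S r v = ((S.filter fun h => rmul r h = v).card : ℝ) := by
  unfold dl
  rw [Finset.sum_boole]

theorem HV_mu (F : Finset (W p × W p)) (r v : W p) :
    mu F r v = ((univ.filter fun c : (ZMod p)ˣ => (r, (c : ZMod p) • v) ∈ F).card : ℝ) := by
  unfold mu
  rw [Finset.sum_boole]

end

theorem hHV : StHV := by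
  intro p _ S s s' K hs hs' hK g hg r hD hF
  have hp : 2 ≤ p := (Fact.out : p.Prime).two_le
  have hp' : (2 : ℝ) ≤ p := by exact_mod_cast hp
  set v : W p := rmul r g with hv
  have hD' := (Finset.mem_filter.1 hD).2
  obtain ⟨hr0, hv0, _⟩ := hD'
  simp only at hr0 hv0
  have hmu : K < mu (DD S s) r v := by
    by_contra hlt
    push Not at hlt
    exact hF (Finset.mem_filter.2 ⟨hD, hlt⟩)
  have hw : (![-v.2, v.1] : Fin 2 → ZMod p) ≠ 0 := by
    intro h
    apply hv0
    have h0 := congrFun h 0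
    have h1 := congrFun h 1
    simp only [Matrix.cons_val_zero, Matrix.cons_val_one, Pi.zero_apply, neg_eq_zero,
      Matrix.cons_val_fin_one] at h0 h1
    exact Prod.ext h1 h0
  set x : ℙ (ZMod p) (Fin 2 → ZMod p) := Projectivization.mk (ZMod p) ![-v.2, v.1] hw with hx
  refine ⟨x, ?_⟩
  set C : Finset (ZMod p)ˣ := univ.filter fun c : (ZMod p)ˣ => (r, (c : ZMod p) • v) ∈ DD S s with hC
  set A : (ZMod p)ˣ → Finset (G p) := fun c => S.filter fun h => rmul r h = (c : ZMod p) • v with hA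
  set B : Finset (G p) := S.filter fun h => h • x = g • x with hB
  have hgk : g • (![-v.2, v.1] : Fin 2 → ZMod p) = ![-r.2, r.1] := by
    have := HV_key r v g 1 (by rw [Units.val_one, one_smul])
    rw [this, inv_one, Units.val_one, one_smul]
  have hAB : C.biUnion A ⊆ B := by
    intro h hh
    obtain ⟨c, _, hc⟩ := Finset.mem_biUnion.1 hh
    obtain ⟨h1, h2⟩ := Finset.mem_filter.1 hc
    refine Finset.mem_filter.2 ⟨h1, ?_⟩
    rw [hx, Projectivization.smul_mk, Projectivization.smul_mk, Projectivization.mk_eq_mk_iff']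
    refine ⟨((c⁻¹ : (ZMod p)ˣ) : ZMod p), ?_⟩
    rw [hgk, HV_key r v h c h2]
  have hdisj : (C : Set (ZMod p)ˣ).PairwiseDisjoint A := by
    intro c _ c' _ hcc
    refine Finset.disjoint_left.2 fun h h1 h2 => hcc ?_
    have e1 := (Finset.mem_filter.1 h1).2
    have e2 := (Finset.mem_filter.1 h2).2
    have e3 : ((c : ZMod p) - c') • v = 0 := by
      rw [sub_smul, ← e1, ← e2, sub_self]
    have e4 := (smul_eq_zero.1 e3).resolve_right hv0
    exact Units.ext (sub_eq_zero.1 e4)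
  have h1 : ∑ c ∈ C, ((A c).card : ℝ) ≤ (B.card : ℝ) := by
    have := Finset.card_le_card hAB
    rw [Finset.card_biUnion hdisj] at this
    exact_mod_cast this
  have h2 : ∑ _c ∈ C, s * p ≤ ∑ c ∈ C, ((A c).card : ℝ) := by
    refine Finset.sum_le_sum fun c hc => ?_
    have e1 := (Finset.mem_filter.1 (Finset.mem_filter.1 hc).2).2.2.2
    rw [HV_dl] at e1
    exact e1
  rw [Finset.sum_const, nsmul_eq_mul] at h2
  have h3 : K < (C.card : ℝ) := by
    rw [HV_mu] at hmu
    exact hmu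
  have h4 : ({h | h ∈ (S : Set (G p)) ∧ h • x = g • x}.ncard : ℝ) = (B.card : ℝ) := by
    have : {h | h ∈ (S : Set (G p)) ∧ h • x = g • x} = (B : Set (G p)) := by
      ext h
      simp [hB]
    rw [this, Set.ncard_coe_finset]
  rw [h4]
  refine le_trans ?_ (h2.trans h1)
  have h5 : 0 ≤ K := by
    rw [hK]
    positivity
  calc s' * (p * (p - 1)) ≤ s' * (p * p) := by
        refine mul_le_mul_of_nonneg_left ?_ hs'
        nlinarith
    _ = K * (1 / 2 * p) := by rw [hK]; ring
    _ ≤ K * (s * p) := by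
        refine mul_le_mul_of_nonneg_left ?_ h5
        nlinarith
    _ ≤ C.card * (s * p) := by
        refine mul_le_mul_of_nonneg_right h3.le ?_
        nlinarith

end Pool.Agent.Helper64.SY
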